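import Mathlib

open MeasureTheory Filter Topology Set Metric
open scoped ENNReal NNReal

namespace Pool.Agent.Results.MP_05d054_an.Sum

/-- upper box-counting dimension `limsup log N(ε) / log (1/ε)` -/
noncomputable def boxDim {X : Type} [PseudoEMetricSpace X] (s : Set X) : EReal :=
  limsup (fun ε : ℝ≥0 => ENNReal.log (externalCoveringNumber ε s) / ENNReal.log (ε : ℝ≥0∞)⁻¹) (𝓝[>] 0)

/-- boundary of the unit cube: the union of its `(n-1)`-dimensional faces -/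
def K (n : ℕ) : Set (EuclideanSpace ℝ (Fin n)) :=
  {x | (∀ j, x j ∈ Icc (0 : ℝ) 1) ∧ ∃ j, x j = 0 ∨ x j = 1}

variable {X : Type} [EMetricSpace X] [MeasurableSpace X] [BorelSpace X]

omit [MeasurableSpace X] [BorelSpace X] in
lemma cover {t : Set X} {b : ℝ} (h : boxDim t < b) : ∀ᶠ ε : ℝ≥0 in 𝓝[>] 0,
    ∃ C : Finset X, IsCover ε t C ∧ (C.card : ℝ≥0∞) ≤ (ε : ℝ≥0∞)⁻¹ ^ b := by
  filter_upwards [eventually_lt_of_limsup_lt h, Ioo_mem_nhdsGT one_pos] with ε h1 h2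
  have e1 : 1 < (ε : ℝ≥0∞)⁻¹ := ENNReal.one_lt_inv.2 (by exact_mod_cast h2.2)
  rw [EReal.div_lt_iff (by simpa using e1) (by simpa using h2.1.ne'), ← ENNReal.log_rpow,
    ENNReal.log_lt_log_iff] at h1
  simp only [externalCoveringNumber, ENat.toENNReal_iInf, iInf_lt_iff] at h1
  obtain ⟨C, hC, h1⟩ := h1
  have : C.Finite := by simpa using h1.ne_top
  lift C to Finset X using this
  exact ⟨C, hC, by simpa using h1.le⟩

lemma small {s : Set X} {d : ℝ} (hd : 0 < d) (h : μH[d] s = 0) {ε : ℝ≥0} (hε : 0 < ε) :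
    ∃ (U : ℕ → Set X) (ρ : ℕ → ℝ≥0), s ⊆ ⋃ i, U i ∧ (∀ i, ediam (U i) ≤ ρ i ∧ ρ i ∈ Ioc 0 ε) ∧
      ∑' i, (ρ i : ℝ≥0∞) ^ d ≤ 2 * ε := by
  have e0 : (0 : ℝ≥0∞) < ε := by exact_mod_cast hε
  have := ((le_iSup₂ (f := fun r (_ : 0 < r) => _) (ε : ℝ≥0∞) e0).trans
    ((Measure.hausdorffMeasure_apply d s).symm.trans h).le).trans_lt e0
  simp only [iInf_lt_iff] at this
  obtain ⟨U, h1, h2, h3⟩ := this
  obtain ⟨η, p, hη⟩ := ENNReal.exists_pos_sum_of_countable e0.ne' ℕ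
  have ne : ∀ i, ediam (U i) ≠ ⊤ := fun i => ((h2 i).trans_lt ENNReal.coe_lt_top).ne
  refine ⟨U, fun i => max (ediam (U i)).toNNReal (min ε (η i ^ d⁻¹)), h1, fun i => ⟨by simp [ne], ?_, ?_⟩, ?_⟩
  · have := p i
    positivity
  · exact max_le (ENNReal.toNNReal_mono ENNReal.coe_ne_top (h2 i)) (min_le_left _ _)
  · rw [two_mul]
    refine le_trans (ENNReal.tsum_le_tsum fun i => ?_) (ENNReal.tsum_add.le.trans (add_le_add h3.le hη.le))
    rcases max_choice (ediam (U i)).toNNReal (min ε (η i ^ d⁻¹)) with e | e <;> simp only [e]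
    · refine le_add_right ?_
      rcases (U i).eq_empty_or_nonempty with e | e <;> simp [e, hd, ne]
    · refine le_add_left ((ENNReal.rpow_le_rpow (ENNReal.coe_le_coe.2 (min_le_right _ _)) hd.le).trans ?_)
      rw [← ENNReal.coe_rpow_of_nonneg _ hd.le, NNReal.rpow_inv_rpow hd.ne']

lemma prod0 [SecondCountableTopology X] {s t : Set X} {d b : ℝ} (hd : 0 < d) (hb : 0 ≤ d + b)
    (h : μH[d] s = 0) (h' : boxDim t < b) : μH[d + b] (s ×ˢ t) = 0 := by
  obtain ⟨δ, hδ, H⟩ := mem_nhdsGT_iff_exists_Ioc_subset.1 (cover h')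
  obtain ⟨u, -, p, hu⟩ := exists_seq_strictAnti_tendsto' (show 0 < δ from hδ)
  choose U ρ h1 h2 h3 using fun n => small hd h (p n).1
  choose C h4 h5 using fun n i => H ⟨(h2 n i).2.1, (h2 n i).2.2.trans (p n).2.le⟩
  have hu' : ∀ c : ℝ≥0∞, c ≠ ⊤ → Tendsto (fun n => c * u n) atTop (𝓝 0) := fun c hc => by
    simpa using ENNReal.Tendsto.const_mul (ENNReal.tendsto_coe.2 hu) (.inr hc)
  have D : ∀ n (i : Σ i, C n i), ediam (U n i.1 ×ˢ closedEBall (i.2 : X) (ρ n i.1)) ≤ 2 * ρ n i.1 :=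
    fun n i => ediam_le fun x hx y hy => by
      rw [Prod.edist_eq]
      exact max_le ((edist_le_ediam_of_mem hx.1 hy.1).trans ((h2 n _).1.trans (by
        rw [two_mul]; exact le_self_add))) ((edist_le_ediam_of_mem hx.2 hy.2).trans ediam_closedEBall_le)
  refine nonpos_iff_eq_zero.1 ((Measure.hausdorffMeasure_le_liminf_tsum (d + b) _ _ (hu' 2 (by simp))
    (fun n (i : Σ i, C n i) => U n i.1 ×ˢ closedEBall (i.2 : X) (ρ n i.1))
    (.of_forall fun n i => (D n i).trans (by gcongr; exact_mod_cast (h2 n _).2.2))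
    (.of_forall fun n x hx => ?_)).trans ((liminf_le_liminf (.of_forall fun n => ?_)).trans
      (hu' (2 ^ (d + b) * 2) (by finiteness)).liminf_eq.le))
  · obtain ⟨i, hi⟩ := mem_iUnion.1 (h1 n hx.1)
    obtain ⟨y, hy, hy'⟩ := h4 n i hx.2
    exact mem_iUnion.2 ⟨⟨i, y, hy⟩, hi, hy'⟩
  · rw [ENNReal.tsum_sigma', mul_assoc]
    refine le_trans ?_ (mul_le_mul_right (h3 n) _)
    rw [← ENNReal.tsum_mul_left]
    refine ENNReal.tsum_le_tsum fun i => (ENNReal.tsum_le_tsum fun y =>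
      ENNReal.rpow_le_rpow (D n ⟨i, y⟩) hb).trans ?_
    have r0 : (ρ n i : ℝ≥0∞) ≠ 0 := by exact_mod_cast (h2 n i).2.1.ne'
    simp only [tsum_fintype, Finset.sum_const, Finset.card_univ, Fintype.card_coe, nsmul_eq_mul]
    grw [h5 n i]
    rw [ENNReal.mul_rpow_of_nonneg _ _ hb, ENNReal.inv_rpow, ← ENNReal.rpow_neg,
      mul_left_comm, ← ENNReal.rpow_add _ _ r0 (by simp)]
    simp

theorem result (n : ℕ) (hn : 1 ≤ n) (f : ℝ → EuclideanSpace ℝ (Fin n))
    (G : Set (EuclideanSpace ℝ (Fin n))) (hG : G = ⋃ t ∈ Ioo (0 : ℝ) 1, (fun x => t • x + f t) '' K n) :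
    ((2 * n - 1 : ℝ) : EReal) ≤ dimH G + boxDim G := by
  obtain ⟨m, rfl⟩ : ∃ m, n = m + 1 := ⟨n - 1, by omega⟩
  have mem : ∀ t ∈ Ioo (0 : ℝ) 1, ∀ a : ℝ, a = 0 ∨ a = 1 → ∀ z : Fin m → ℝ,
      (∀ j, f t j.succ ≤ z j ∧ z j ≤ f t j.succ + t) →
      WithLp.toLp 2 (Fin.cons (t * a + f t 0) z : Fin (m + 1) → ℝ) ∈ G := fun t ht a ha z hz => by
    have := ht.1
    refine hG ▸ mem_iUnion₂.2 ⟨t, ht, WithLp.toLp 2 (Fin.cons a fun j => (z j - f t j.succ) / t),
      ⟨fun j => ?_, 0, by simpa⟩, ?_⟩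
    · refine Fin.cases ?_ (fun j => ⟨?_, ?_⟩) j
      · rcases ha with rfl | rfl <;> simp
      · exact div_nonneg (sub_nonneg.2 (hz j).1) this.le
      · exact (div_le_one this).2 (by linarith [(hz j).2])
    · ext j
      refine Fin.cases (by simp) (fun j => ?_) j
      simp; field_simp; ring
  let T : (Fin m → ℚ) × ℕ → Set ℝ := fun q => {t ∈ Ioo (0 : ℝ) 1 |
    ∀ j, f t j.succ ≤ q.1 j ∧ q.1 j + 1 / (q.2 + 1 : ℝ) ≤ f t j.succ + t}
  obtain ⟨q, hq⟩ : ∃ q, volume (T q) ≠ 0 := by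
    by_contra! H
    have : Ioo (0 : ℝ) 1 ⊆ ⋃ q, T q := fun t ht => by
      obtain ⟨k, hk⟩ := exists_nat_one_div_lt (half_pos ht.1)
      choose q h1 h2 using fun j : Fin m =>
        exists_rat_btwn (show f t j.succ < f t j.succ + t / 2 by linarith [ht.1])
      exact mem_iUnion.2 ⟨(q, k), ht, fun j => ⟨(h1 j).le, by linarith [h2 j]⟩⟩
    simpa using measure_mono_null this (measure_iUnion_null H)
  let I : Fin m → Set ℝ := fun j => Icc (q.1 j) (q.1 j + 1 / (q.2 + 1 : ℝ))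
  let S : Option (Fin m ⊕ Fin m) → Set ℝ := fun o => o.elim (T q) (Sum.elim I I)
  let E := EuclideanSpace ℝ (Fin (m + 1))
  let P : Fin (m + 1) → E →L[ℝ] ℝ := fun j => EuclideanSpace.proj j
  let Φ : E × E →L[ℝ] Option (Fin m ⊕ Fin m) → ℝ := .pi fun o =>
    o.elim (P 0 ∘L .snd ℝ E E - P 0 ∘L .fst ℝ E E)
      (Sum.elim (fun j => P j.succ ∘L .fst ℝ E E) fun j => P j.succ ∘L .snd ℝ E E)
  have sub : univ.pi S ⊆ Φ '' G ×ˢ G := fun w hw => by
    have h0 := hw none trivial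
    refine ⟨(_, _), ⟨mem _ h0.1 0 (.inl rfl) (fun j => w (some (.inl j))) fun j => ?_,
      mem _ h0.1 1 (.inr rfl) (fun j => w (some (.inr j))) fun j => ?_⟩, ?_⟩
    · exact ⟨(h0.2 j).1.trans (hw (some (.inl j)) trivial).1,
        (hw (some (.inl j)) trivial).2.trans (h0.2 j).2⟩
    · exact ⟨(h0.2 j).1.trans (hw (some (.inr j)) trivial).1,
        (hw (some (.inr j)) trivial).2.trans (h0.2 j).2⟩
    · ext (_ | j | j)
      · change (w none * 1 + f (w none) 0) - (w none * 0 + f (w none) 0) = _; ring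
      all_goals rfl
  have pos : μH[2 * m + 1] (G ×ˢ G) ≠ 0 := fun H => by
    have := (measure_mono sub).trans (Φ.lipschitz.hausdorffMeasure_image_le (d := 2 * m + 1)
      (by positivity) _)
    rw [H, mul_zero, show (2 * m + 1 : ℝ) = Fintype.card (Option (Fin m ⊕ Fin m)) by simp; ring,
      hausdorffMeasure_pi_real, volume_pi, Measure.pi_pi, nonpos_iff_eq_zero, Finset.prod_eq_zero_iff]
      at this
    obtain ⟨_ | j | j, -, h⟩ := this
    · exact hq h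
    all_goals simp [S, I] at h; linarith [Nat.cast_nonneg (α := ℝ) q.2]
  have ne : G.Nonempty := nonempty_iff_ne_empty.2 fun h => by simp [h] at pos
  have y0 : 0 ≤ boxDim G := le_limsup_of_frequently_le' (Eventually.frequently <| by
    filter_upwards [Ioo_mem_nhdsGT one_pos] with ε h
    refine EReal.div_nonneg ?_ ?_ <;> rw [ENNReal.zero_le_log_iff]
    · exact_mod_cast Order.one_le_iff_pos.2 (externalCoveringNumber_pos_iff.2 ne)
    · exact ENNReal.one_le_inv.2 (by exact_mod_cast h.2.le))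
  by_contra! H
  have hy : boxDim G ≠ ⊥ := (lt_of_lt_of_le EReal.bot_lt_zero y0).ne'
  have hx : dimH G ≠ ⊤ := fun h => by simp [h, EReal.top_add_of_ne_bot hy] at H
  lift dimH G to ℝ≥0 using hx with x hx'
  lift boxDim G to ℝ using ⟨fun h => by simp [h] at H, hy⟩ with y hy'
  have H' : x + y < 2 * (m + 1 : ℝ) - 1 := by
    simpa using EReal.coe_lt_coe_iff.1 ((EReal.coe_add x y).trans_lt H)
  have := x.2
  let d : ℝ≥0 := ⟨(2 * m + 1 + x - y) / 2, by linarith [x.2]⟩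
  have hd : x < d := show (x : ℝ) < (2 * m + 1 + x - y) / 2 by linarith
  refine pos ?_
  rw [show (2 * m + 1 : ℝ) = d + (2 * m + 1 - d) by ring]
  refine prod0 (lt_of_le_of_lt x.2 hd) (by simp; positivity)
    (hausdorffMeasure_of_dimH_lt (hx' ▸ ENNReal.coe_lt_coe.2 hd)) ?_
  rw [← hy', EReal.coe_lt_coe_iff]
  change y < 2 * m + 1 - (2 * m + 1 + x - y) / 2
  linarith

end Pool.Agent.Results.MP_05d054_an.Sum
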